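import Pool.Agent.Q173.KS.Stm

/-!
# Project KS: the job PAIRS (explicit law of the lazy pair swaps)
-/

set_option autoImplicit false

namespace Pool.Agent.Q149.KS

open Pool.Agent.Q173.KS Finset

variable {I : Type} [DecidableEq I]

lemma swD_empty : swD (∅ : Finset I) = 1 := by
  ext x <;> simp [swD]

lemma swD_mul_swap {D : Finset I} {i : I} (hi : i ∉ D) :
    swD D * Equiv.swap (false, i) (true, i) = swD (insert i D) := by
  refine Equiv.ext ?_
  rintro ⟨b, j⟩
  rw [Equiv.Perm.mul_apply]
  by_cases hj : j = i
  · subst hj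
    cases b
    · rw [Equiv.swap_apply_left]
      simp [swD, hi]
    · rw [Equiv.swap_apply_right]
      simp [swD, hi]
  · rw [Equiv.swap_apply_of_ne_of_ne (fun h => hj (Prod.mk.inj h).2)
      (fun h => hj (Prod.mk.inj h).2)]
    simp [swD, hj]

lemma pairs_list (p : I → ℝ) (js : List I) (hjs : js.Nodup)
    (F : Equiv.Perm (Bool × I) → ℝ) :
    EP (js.map (fun i => (⟨(false, i), (true, i), p i⟩ : Op (Bool × I)))) F
      = ∑ D ∈ js.toFinset.powerset,
        (∏ i ∈ D, p i) * (∏ i ∈ js.toFinset \ D, (1 - p i)) * F (swD D) := by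
  induction js generalizing F with
  | nil => simp [swD_empty]
  | cons i js ih =>
    rw [List.nodup_cons] at hjs
    obtain ⟨hi, hjs⟩ := hjs
    have hi' : i ∉ js.toFinset := by simpa using hi
    rw [List.map_cons, EP_cons, ih hjs, ih hjs, List.toFinset_cons, Finset.sum_powerset_insert hi',
      Finset.mul_sum, Finset.mul_sum]
    congr 1
    · refine Finset.sum_congr rfl (fun D hD => ?_)
      have hD' : D ⊆ js.toFinset := Finset.mem_powerset.1 hD
      have hiD : i ∉ D := fun h => hi' (hD' h)
      rw [Finset.insert_sdiff_of_notMem _ hiD, Finset.prod_insert (by simp [hi])]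
      ring
    · refine Finset.sum_congr rfl (fun D hD => ?_)
      have hD' : D ⊆ js.toFinset := Finset.mem_powerset.1 hD
      have hiD : i ∉ D := fun h => hi' (hD' h)
      have h2 : insert i js.toFinset \ insert i D = js.toFinset \ D := by
        ext x
        simp only [Finset.mem_sdiff, Finset.mem_insert]
        constructor
        · rintro ⟨h | h, h'⟩
          · exact absurd (Or.inl h) h'
          · exact ⟨h, fun h2 => h' (Or.inr h2)⟩
        · rintro ⟨h, h'⟩
          refine ⟨Or.inr h, ?_⟩
          rintro (h2 | h2)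
          · exact hi' (h2 ▸ h)
          · exact h' h2
      rw [h2, Finset.prod_insert hiD, swD_mul_swap hiD]
      ring

theorem pairs : S_PAIRS := by
  intro I _ _ p F
  have h := pairs_list p (univ : Finset I).toList (Finset.nodup_toList _) F
  unfold pairsP
  rw [h, Finset.toList_toFinset, Finset.powerset_univ]
  refine Finset.sum_congr rfl (fun D _ => ?_)
  rw [Finset.compl_eq_univ_sdiff]

end Pool.Agent.Q149.KS
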